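import Mathlib

/-!
# MP_1020fe_co, Q1: a spectrally arbitrary direct sum of two patterns that are not spectrally
arbitrary

The zero-nonzero pattern `M4` (order 4) and the zero-nonzero pattern `M5` (order 5) below are both
not spectrally arbitrary, but their direct sum, of order 9, is spectrally arbitrary.
-/

open Polynomial Matrix

namespace Pool.Agent.Results.MP_1020fe_co.SumOfNonSAP

/-- A realization of the zero-nonzero pattern `P`: the entry `(i,j)` is nonzero exactly when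
`P i j` is `true`. -/
def Realizes {n : ℕ} (P : Matrix (Fin n) (Fin n) Bool) (A : Matrix (Fin n) (Fin n) ℝ) : Prop :=
  ∀ i j, A i j ≠ 0 ↔ P i j = true

/-- A zero-nonzero pattern is spectrally arbitrary if every monic real polynomial of degree `n`
is the characteristic polynomial of a realization. -/
def SpectrallyArbitrary {n : ℕ} (P : Matrix (Fin n) (Fin n) Bool) : Prop :=
  ∀ p : ℝ[X], p.Monic → p.natDegree = n →
    ∃ A : Matrix (Fin n) (Fin n) ℝ, Realizes P A ∧ A.charpoly = p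

/-- The direct sum of two patterns: the block-diagonal pattern with blocks `P` and `Q`. -/
def directSum {m n : ℕ} (P : Matrix (Fin m) (Fin m) Bool) (Q : Matrix (Fin n) (Fin n) Bool) :
    Matrix (Fin (m + n)) (Fin (m + n)) Bool :=
  Matrix.reindex finSumFinEquiv finSumFinEquiv
    (Matrix.fromBlocks P (fun _ _ => false) (fun _ _ => false) Q)

/-- The zero-nonzero pattern of `M₄`. -/
def P4 : Matrix (Fin 4) (Fin 4) Bool :=
  !![true, true, true, false;
     true, true, true, false;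
     false, false, false, true;
     true, true, false, false]

/-- A zero-nonzero pattern of order 5. -/
def P5 : Matrix (Fin 5) (Fin 5) Bool :=
  !![false, false, true, false, true;
     false, true, true, true, false;
     true, false, true, true, false;
     true, true, false, false, false;
     true, false, false, false, false]

/-! ### Characteristic polynomials -/

def M5 (c g α β γ δ ε : ℝ) : Matrix (Fin 5) (Fin 5) ℝ :=
  !![0, 0, 1, 0, 1; 0, c, ε, γ, 0; α, 0, g, 1, 0; δ, 1, 0, 0, 0; β, 0, 0, 0, 0]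

theorem M5_eval (c g α β γ δ ε x : ℝ) :
    (M5 c g α β γ δ ε).charpoly.eval x =
      x ^ 5 - (c + g) * x ^ 4 + (c * g - α - β - γ) * x ^ 3
        - (δ + ε - c * α - c * β - g * β - g * γ) * x ^ 2
        + ((α + β) * γ - c * g * β + c * δ) * x - β * (g * γ - ε) := by
  rw [Matrix.eval_charpoly]
  simp [M5, Matrix.det_succ_row_zero, Fin.sum_univ_succ, Fin.succAbove, Matrix.scalar_apply]
  ring

theorem gen5_eval (A : Matrix (Fin 5) (Fin 5) ℝ) (x : ℝ)
    (h00 : A 0 0 = 0) (h01 : A 0 1 = 0) (h03 : A 0 3 = 0)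
    (h10 : A 1 0 = 0) (h14 : A 1 4 = 0)
    (h21 : A 2 1 = 0) (h24 : A 2 4 = 0)
    (h32 : A 3 2 = 0) (h33 : A 3 3 = 0) (h34 : A 3 4 = 0)
    (h41 : A 4 1 = 0) (h42 : A 4 2 = 0) (h43 : A 4 3 = 0) (h44 : A 4 4 = 0) :
    A.charpoly.eval x =
      x ^ 5 - (A 1 1 + A 2 2) * x ^ 4
        + (A 1 1 * A 2 2 - A 0 2 * A 2 0 - A 0 4 * A 4 0 - A 1 3 * A 3 1) * x ^ 3
        - (A 0 2 * A 2 3 * A 3 0 + A 1 2 * A 2 3 * A 3 1 - A 1 1 * (A 0 2 * A 2 0)
            - A 1 1 * (A 0 4 * A 4 0) - A 2 2 * (A 0 4 * A 4 0) - A 2 2 * (A 1 3 * A 3 1)) * x ^ 2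
        + ((A 0 2 * A 2 0 + A 0 4 * A 4 0) * (A 1 3 * A 3 1)
            - A 1 1 * A 2 2 * (A 0 4 * A 4 0) + A 1 1 * (A 0 2 * A 2 3 * A 3 0)) * x
        - (A 0 4 * A 4 0) * (A 2 2 * (A 1 3 * A 3 1) - A 1 2 * A 2 3 * A 3 1) := by
  rw [Matrix.eval_charpoly]
  simp [Matrix.det_succ_row_zero, Fin.sum_univ_succ, Fin.succAbove, Matrix.scalar_apply,
    h00, h01, h03, h10, h14, h21, h24, h32, h33, h34, h41, h42, h43, h44]
  ring

def M4 (a b d e h k : ℝ) : Matrix (Fin 4) (Fin 4) ℝ :=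
  !![a, b, 1, 0; d, e, 1, 0; 0, 0, 0, 1; h, k, 0, 0]

theorem M4_eval (a b d e h k x : ℝ) :
    (M4 a b d e h k).charpoly.eval x =
      x ^ 4 - (a + e) * x ^ 3 + (a * e - b * d) * x ^ 2 - (h + k) * x
        + (h * (e - b) + k * (a - d)) := by
  rw [Matrix.eval_charpoly]
  simp [M4, Matrix.det_succ_row_zero, Fin.sum_univ_succ, Fin.succAbove, Matrix.scalar_apply]
  ring

theorem gen4_eval (A : Matrix (Fin 4) (Fin 4) ℝ) (x : ℝ)
    (h03 : A 0 3 = 0) (h13 : A 1 3 = 0) (h20 : A 2 0 = 0) (h21 : A 2 1 = 0) (h22 : A 2 2 = 0)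
    (h32 : A 3 2 = 0) (h33 : A 3 3 = 0) :
    A.charpoly.eval x =
      x ^ 4 - (A 0 0 + A 1 1) * x ^ 3 + (A 0 0 * A 1 1 - A 0 1 * A 1 0) * x ^ 2
        - A 2 3 * (A 0 2 * A 3 0 + A 1 2 * A 3 1) * x
        + A 2 3 * (A 0 0 * A 1 2 * A 3 1 + A 1 1 * A 0 2 * A 3 0
            - A 0 1 * A 1 2 * A 3 0 - A 1 0 * A 0 2 * A 3 1) := by
  rw [Matrix.eval_charpoly]
  simp [Matrix.det_succ_row_zero, Fin.sum_univ_succ, Fin.succAbove, Matrix.scalar_apply,
    h03, h13, h20, h21, h22, h32, h33]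
  ring

/-! ### The two patterns are not spectrally arbitrary -/

theorem P4_not : ¬ SpectrallyArbitrary P4 := by
  intro hS
  obtain ⟨A, hA, hp⟩ := hS (X ^ 4 + X ^ 2) (by monicity!) (by compute_degree!)
  have z : ∀ i j, P4 i j = false → A i j = 0 := by
    intro i j h
    by_contra hne
    have := (hA i j).1 hne
    rw [h] at this; cases this
  have nz : ∀ i j, P4 i j = true → A i j ≠ 0 := fun i j h => (hA i j).2 h
  have key : ∀ x : ℝ, x ^ 4 - (A 0 0 + A 1 1) * x ^ 3 + (A 0 0 * A 1 1 - A 0 1 * A 1 0) * x ^ 2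
        - A 2 3 * (A 0 2 * A 3 0 + A 1 2 * A 3 1) * x
        + A 2 3 * (A 0 0 * A 1 2 * A 3 1 + A 1 1 * A 0 2 * A 3 0
            - A 0 1 * A 1 2 * A 3 0 - A 1 0 * A 0 2 * A 3 1) = x ^ 4 + x ^ 2 := by
    intro x
    rw [← gen4_eval A x (z _ _ rfl) (z _ _ rfl) (z _ _ rfl) (z _ _ rfl) (z _ _ rfl) (z _ _ rfl)
      (z _ _ rfl), hp]
    simp
  have k0 := key 0
  have k1 := key 1
  have k2 := key (-1)
  have k3 := key 2
  have n23 : A 2 3 ≠ 0 := nz _ _ rfl
  have n02 : A 0 2 ≠ 0 := nz _ _ rfl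
  have n12 : A 1 2 ≠ 0 := nz _ _ rfl
  have n31 : A 3 1 ≠ 0 := nz _ _ rfl
  have n10 : A 1 0 ≠ 0 := nz _ _ rfl
  have e1 : A 0 0 + A 1 1 = 0 := by linarith
  have e2 : A 0 0 * A 1 1 - A 0 1 * A 1 0 = 1 := by linarith
  have e3 : A 2 3 * (A 0 2 * A 3 0 + A 1 2 * A 3 1) = 0 := by linarith
  have e4 : A 2 3 * (A 0 0 * A 1 2 * A 3 1 + A 1 1 * A 0 2 * A 3 0
            - A 0 1 * A 1 2 * A 3 0 - A 1 0 * A 0 2 * A 3 1) = 0 := by linarith
  have e3' := (mul_eq_zero.1 e3).resolve_left n23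
  have e4' := (mul_eq_zero.1 e4).resolve_left n23
  generalize A 0 0 = a at *
  generalize A 0 1 = b at *
  generalize A 0 2 = c at *
  generalize A 1 0 = d at *
  generalize A 1 1 = e at *
  generalize A 1 2 = f at *
  generalize A 3 0 = h at *
  generalize A 3 1 = k at *
  have he : e = -a := by linarith
  subst he
  -- multiply e4' by f and use  f*k = -c*h
  have hne : h ≠ 0 := by
    rintro rfl
    apply mul_ne_zero n12 n31
    linarith
  have q : h * (d * c ^ 2 - 2 * a * c * f - b * f ^ 2) = 0 := by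
    have : f * k = -(c * h) := by linarith
    linear_combination f * e4' - (a * f - d * c) * this
  have q' := (mul_eq_zero.1 q).resolve_left hne
  have : (d * c - a * f) ^ 2 + f ^ 2 = 0 := by
    linear_combination d * q' + f ^ 2 * (-e2)
  have hf : 0 < f ^ 2 := by positivity
  nlinarith [sq_nonneg (d * c - a * f)]

theorem P5_not : ¬ SpectrallyArbitrary P5 := by
  intro hS
  obtain ⟨A, hA, hp⟩ := hS (X ^ 5 + X) (by monicity!) (by compute_degree!)
  have z : ∀ i j, P5 i j = false → A i j = 0 := by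
    intro i j h
    by_contra hne
    have := (hA i j).1 hne
    rw [h] at this; cases this
  have nz : ∀ i j, P5 i j = true → A i j ≠ 0 := fun i j h => (hA i j).2 h
  have key : ∀ x : ℝ, x ^ 5 - (A 1 1 + A 2 2) * x ^ 4
        + (A 1 1 * A 2 2 - A 0 2 * A 2 0 - A 0 4 * A 4 0 - A 1 3 * A 3 1) * x ^ 3
        - (A 0 2 * A 2 3 * A 3 0 + A 1 2 * A 2 3 * A 3 1 - A 1 1 * (A 0 2 * A 2 0)
            - A 1 1 * (A 0 4 * A 4 0) - A 2 2 * (A 0 4 * A 4 0) - A 2 2 * (A 1 3 * A 3 1)) * x ^ 2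
        + ((A 0 2 * A 2 0 + A 0 4 * A 4 0) * (A 1 3 * A 3 1)
            - A 1 1 * A 2 2 * (A 0 4 * A 4 0) + A 1 1 * (A 0 2 * A 2 3 * A 3 0)) * x
        - (A 0 4 * A 4 0) * (A 2 2 * (A 1 3 * A 3 1) - A 1 2 * A 2 3 * A 3 1) = x ^ 5 + x := by
    intro x
    rw [← gen5_eval A x (z _ _ rfl) (z _ _ rfl) (z _ _ rfl) (z _ _ rfl) (z _ _ rfl) (z _ _ rfl)
      (z _ _ rfl) (z _ _ rfl) (z _ _ rfl) (z _ _ rfl) (z _ _ rfl) (z _ _ rfl) (z _ _ rfl)
      (z _ _ rfl), hp]
    simp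
  have n04 : A 0 4 * A 4 0 ≠ 0 := mul_ne_zero (nz _ _ rfl) (nz _ _ rfl)
  have k0 := key 0
  have k1 := key 1
  have k2 := key (-1)
  have k3 := key 2
  have k4 := key (-2)
  clear hp hA key z nz
  generalize A 0 2 * A 2 3 * A 3 0 = δ at *
  generalize A 1 2 * A 2 3 * A 3 1 = ε at *
  generalize A 0 2 * A 2 0 = α at *
  generalize A 0 4 * A 4 0 = β at *
  generalize A 1 3 * A 3 1 = γ at *
  generalize A 1 1 = c at *
  generalize A 2 2 = g at *
  have e1 : c + g = 0 := by linarith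
  have e2 : c * g - α - β - γ = 0 := by linarith
  have e3 : δ + ε - c * α - c * β - g * β - g * γ = 0 := by linarith
  have e4 : (α + β) * γ - c * g * β + c * δ = 1 := by linarith
  have e5 : β * (g * γ - ε) = 0 := by linarith
  have e5' := (mul_eq_zero.1 e5).resolve_left n04
  have hg : g = -c := by linarith
  subst hg
  have hγ : γ = -c * c - α - β := by linarith
  have hε : ε = -c * γ := by linarith
  have hδ : δ = c * α := by
    rw [hε] at e3; linarith
  rw [hδ, hγ] at e4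
  nlinarith [sq_nonneg (α + β)]

/-! ### Avoiding finitely many polynomial conditions -/

theorem exists_avoid (s : Set ℝ) (hs : s.Infinite) (p : ℝ[X]) (hp : p ≠ 0) :
    ∃ x ∈ s, p.eval x ≠ 0 := by
  have hfin : {x | p.IsRoot x}.Finite := by
    refine (p.roots.toFinset.finite_toSet).subset ?_
    intro x hx
    simpa [hp] using hx
  obtain ⟨x, hx, hx'⟩ := hs.exists_notMem_finite hfin
  exact ⟨x, hx, hx'⟩

/-! ### Realizing quartics -/

theorem M4_realizes {a b d e h k : ℝ} (ha : a ≠ 0) (hb : b ≠ 0) (hd : d ≠ 0) (he : e ≠ 0)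
    (hh : h ≠ 0) (hk : k ≠ 0) : Realizes P4 (M4 a b d e h k) := by
  intro i j
  fin_cases i <;> fin_cases j <;> simp [P4, M4, *]

theorem quartic_eval {f : ℝ[X]} (hf : IsMonicOfDegree f 4) (x : ℝ) :
    f.eval x = x ^ 4 + f.coeff 3 * x ^ 3 + f.coeff 2 * x ^ 2 + f.coeff 1 * x + f.coeff 0 := by
  rw [Polynomial.eval_eq_sum_range, hf.natDegree_eq]
  have h4 : f.coeff 4 = 1 := by
    have := hf.monic
    rwa [Polynomial.Monic, Polynomial.leadingCoeff, hf.natDegree_eq] at this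
  simp [Finset.sum_range_succ, h4]
  ring

theorem quintic_eval {f : ℝ[X]} (hf : IsMonicOfDegree f 5) (x : ℝ) :
    f.eval x = x ^ 5 + f.coeff 4 * x ^ 4 + f.coeff 3 * x ^ 3 + f.coeff 2 * x ^ 2
      + f.coeff 1 * x + f.coeff 0 := by
  rw [Polynomial.eval_eq_sum_range, hf.natDegree_eq]
  have h5 : f.coeff 5 = 1 := by
    have := hf.monic
    rwa [Polynomial.Monic, Polynomial.leadingCoeff, hf.natDegree_eq] at this
  simp [Finset.sum_range_succ, h5]
  ring

theorem realize4 {f : ℝ[X]} (hf : IsMonicOfDegree f 4) (h : f.coeff 0 ≠ 0 ∨ f = X ^ 4) :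
    ∃ A : Matrix (Fin 4) (Fin 4) ℝ, Realizes P4 A ∧ A.charpoly = f := by
  rcases h with h0 | rfl
  · set b3 := f.coeff 3 with hb3
    set b2 := f.coeff 2 with hb2
    set b1 := f.coeff 1 with hb1
    set b0 := f.coeff 0 with hb0
    have hlin : (C b0 + C b1 * X : ℝ[X]) ≠ 0 := by
      intro h
      have := congrArg (Polynomial.eval 0) h
      simp at this
      exact h0 this
    have hquad : (X ^ 2 + C b3 * X + C b2 : ℝ[X]) ≠ 0 := by
      have : (X ^ 2 + C b3 * X + C b2 : ℝ[X]).Monic := by monicity!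
      exact this.ne_zero
    -- choose s
    obtain ⟨s, -, hs⟩ := exists_avoid Set.univ Set.infinite_univ
      ((X ^ 2 + C b3 * X + C b2) * (C b0 + C b1 * X) * X * (X + C b3))
      (by
        refine mul_ne_zero (mul_ne_zero (mul_ne_zero hquad hlin) X_ne_zero) ?_
        exact (monic_X_add_C b3).ne_zero)
    simp only [eval_mul, eval_add, eval_pow, eval_X, eval_C, mul_ne_zero_iff] at hs
    obtain ⟨⟨⟨hs1, hs2⟩, hs3⟩, hs4⟩ := hs
    -- choose t
    obtain ⟨t, -, ht⟩ := exists_avoid Set.univ Set.infinite_univ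
      ((X ^ 2 + C b3 * X + C b2) * (C b0 + C b1 * X) * (X - C s) * (C b2 + C (b3 + s) * X)
        * (C (b2 + b3 * s) + C s * X))
      (by
        refine mul_ne_zero (mul_ne_zero (mul_ne_zero (mul_ne_zero hquad hlin) ?_) ?_) ?_
        · exact (monic_X_sub_C s).ne_zero
        · intro h
          have := congrArg (fun q : ℝ[X] => q.coeff 1) h
          simp [coeff_X, coeff_C] at this
          exact hs4 (by linarith)
        · intro h
          have := congrArg (fun q : ℝ[X] => q.coeff 1) h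
          simp [coeff_X, coeff_C] at this
          exact hs3 this)
    simp only [eval_mul, eval_add, eval_sub, eval_pow, eval_X, eval_C, mul_ne_zero_iff] at ht
    obtain ⟨⟨⟨⟨ht1, ht2⟩, ht3⟩, ht4⟩, ht5⟩ := ht
    have hst : s - t ≠ 0 := fun h => ht3 (by linarith)
    refine ⟨M4 ((b2 + b3 * t + s * t) / (s - t)) (-(s ^ 2 + b3 * s + b2) / (s - t))
      ((t ^ 2 + b3 * t + b2) / (s - t)) (-(b2 + b3 * s + s * t) / (s - t))
      ((b0 + b1 * t) / (s - t)) (-(b0 + b1 * s) / (s - t)), ?_, ?_⟩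
    · apply M4_realizes
      · refine div_ne_zero (fun h => ht4 ?_) hst
        linarith
      · exact div_ne_zero (neg_ne_zero.2 hs1) hst
      · exact div_ne_zero ht1 hst
      · refine div_ne_zero (neg_ne_zero.2 (fun h => ht5 ?_)) hst
        linarith
      · exact div_ne_zero ht2 hst
      · exact div_ne_zero (neg_ne_zero.2 hs2) hst
    · apply Polynomial.funext
      intro x
      rw [M4_eval, quartic_eval hf, ← hb3, ← hb2, ← hb1, ← hb0]
      field_simp
      ring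
  · refine ⟨M4 1 (-1) 1 (-1) 1 (-1), ?_, ?_⟩
    · apply M4_realizes <;> norm_num
    · apply Polynomial.funext
      intro x
      rw [M4_eval]
      simp

/-! ### Realizing quintics -/

theorem M5_realizes {c g α β γ δ ε : ℝ} (hc : c ≠ 0) (hg : g ≠ 0) (hα : α ≠ 0) (hβ : β ≠ 0)
    (hγ : γ ≠ 0) (hδ : δ ≠ 0) (hε : ε ≠ 0) : Realizes P5 (M5 c g α β γ δ ε) := by
  intro i j
  fin_cases i <;> fin_cases j <;> simp [P5, M5, *]

theorem infinite_of_Ici {s : Set ℝ} (M : ℝ) (h : ∀ x, M ≤ x → x ∈ s) : s.Infinite :=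
  (Set.Ici_infinite M).mono h

theorem infinite_of_Iic {s : Set ℝ} (M : ℝ) (h : ∀ x, x ≤ M → x ∈ s) : s.Infinite :=
  (Set.Iic_infinite M).mono h

theorem disc_infinite (E1 E2 E3 E4 : ℝ) (h : ¬ (E1 = 0 ∧ E3 = 0 ∧ E2 ^ 2 < 4 * E4)) :
    {c : ℝ | 0 ≤ (c * E1 - E2) ^ 2 + 4 * (c * E3 - E4)}.Infinite := by
  by_cases h1 : E1 = 0
  · subst h1
    by_cases h3 : E3 = 0
    · subst h3
      have h4 : 4 * E4 ≤ E2 ^ 2 := by
        by_contra hh
        exact h ⟨rfl, rfl, lt_of_not_ge hh⟩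
      refine infinite_of_Ici 0 (fun x _ => ?_)
      simp only [Set.mem_setOf_eq]
      nlinarith
    · rcases lt_or_gt_of_ne h3 with h3 | h3
      · refine infinite_of_Iic (E4 / E3) (fun x hx => ?_)
        simp only [Set.mem_setOf_eq]
        have : E4 ≤ x * E3 := by
          have := (div_le_iff_of_neg h3).1 (show E4 / E3 ≤ E4 / E3 from le_rfl)
          have h5 : E4 / E3 * E3 = E4 := div_mul_cancel₀ _ h3.ne
          nlinarith
        nlinarith [sq_nonneg E2]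
      · refine infinite_of_Ici (E4 / E3) (fun x hx => ?_)
        simp only [Set.mem_setOf_eq]
        have : E4 ≤ x * E3 := by
          rwa [div_le_iff₀ h3] at hx
        nlinarith [sq_nonneg E2]
  · have hpos : 0 < E1 ^ 2 := by positivity
    refine infinite_of_Ici (1 + (|4 * E3 - 2 * E1 * E2| + |E2 ^ 2 - 4 * E4|) / E1 ^ 2)
      (fun x hx => ?_)
    simp only [Set.mem_setOf_eq]
    have hx1 : 1 ≤ x := by
      have : 0 ≤ (|4 * E3 - 2 * E1 * E2| + |E2 ^ 2 - 4 * E4|) / E1 ^ 2 := by positivity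
      linarith
    have hx2 : |4 * E3 - 2 * E1 * E2| + |E2 ^ 2 - 4 * E4| ≤ x * E1 ^ 2 := by
      have : (|4 * E3 - 2 * E1 * E2| + |E2 ^ 2 - 4 * E4|) / E1 ^ 2 ≤ x := by linarith
      rwa [div_le_iff₀ hpos] at this
    have hB := neg_abs_le (4 * E3 - 2 * E1 * E2)
    have hK := neg_abs_le (E2 ^ 2 - 4 * E4)
    have h5 : |E2 ^ 2 - 4 * E4| ≤ x * |E2 ^ 2 - 4 * E4| := by
      nlinarith [abs_nonneg (E2 ^ 2 - 4 * E4)]
    have h6 : x * (|4 * E3 - 2 * E1 * E2| + |E2 ^ 2 - 4 * E4|) ≤ x * (x * E1 ^ 2) :=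
      mul_le_mul_of_nonneg_left hx2 (by linarith)
    have h7 : -(x * |4 * E3 - 2 * E1 * E2|) ≤ x * (4 * E3 - 2 * E1 * E2) := by
      nlinarith
    nlinarith

theorem realize5_nonzero (E1 E2 E3 E4 E5 : ℝ) (h5 : E5 ≠ 0) :
    ∃ A : Matrix (Fin 5) (Fin 5) ℝ, Realizes P5 A ∧ ∀ x : ℝ, A.charpoly.eval x =
      x ^ 5 - E1 * x ^ 4 + E2 * x ^ 3 - E3 * x ^ 2 + E4 * x - E5 := by
  -- choose c
  obtain ⟨c, -, hc⟩ := exists_avoid Set.univ Set.infinite_univ (X * (X - C E1))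
    (mul_ne_zero X_ne_zero (monic_X_sub_C E1).ne_zero)
  simp only [eval_mul, eval_sub, eval_X, eval_C, mul_ne_zero_iff] at hc
  obtain ⟨hc0, hc1⟩ := hc
  have hg : E1 - c ≠ 0 := fun h => hc1 (by linarith)
  -- choose σ
  have m1 : (X ^ 2 - C (c * E1 - E2) * X + C (E4 - c * E3) : ℝ[X]).Monic := by monicity!
  have m2 : (X * (X ^ 2 - C (c * E1 - E2) * X + C (E4 - c * E3)) - C (c * E5) : ℝ[X]).Monic := by
    monicity!
  have m3 : (X - C (c * (E1 - c) - E2) : ℝ[X]).Monic := monic_X_sub_C _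
  have m4 : ((X ^ 2 - C (c * E1 - E2) * X + C (E4 - c * E3))
      - C (c * (E1 - c)) * (C (c * (E1 - c) - E2) - X) : ℝ[X]).Monic := by monicity!
  have m5 : ((X ^ 2 - C (c * E1 - E2) * X + C (E4 - c * E3))
      * (X ^ 2 - C (c * E1 - E2) * X + C (E4 - c * E3)
          + C (c ^ 2) * X + C (c * E3)) + C ((E1 - c) * c ^ 2 * E5) : ℝ[X]).Monic := by monicity!
  obtain ⟨σ, -, hσ⟩ := exists_avoid Set.univ Set.infinite_univ _
    (mul_ne_zero (mul_ne_zero (mul_ne_zero (mul_ne_zero m1.ne_zero m2.ne_zero) m3.ne_zero)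
      m4.ne_zero) m5.ne_zero)
  simp only [eval_mul, eval_add, eval_sub, eval_pow, eval_X, eval_C, mul_ne_zero_iff] at hσ
  obtain ⟨⟨⟨⟨s1, s2⟩, s3⟩, s4⟩, s5⟩ := hσ
  set Q : ℝ := σ ^ 2 - (c * E1 - E2) * σ + (E4 - c * E3) with hQ
  have hβ : c * E5 / Q ≠ 0 := div_ne_zero (mul_ne_zero hc0 h5) s1
  refine ⟨M5 c (E1 - c) (σ - c * E5 / Q) (c * E5 / Q) (c * (E1 - c) - E2 - σ)
    (E3 + Q / c + c * σ + (E1 - c) * (c * E5 / Q))
    ((E1 - c) * (c * (E1 - c) - E2 - σ) - Q / c), ?_, ?_⟩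
  · apply M5_realizes hc0 hg _ hβ
    · intro h
      exact s3 (by linarith)
    · intro h
      apply s5
      have : (E3 + Q / c + c * σ + (E1 - c) * (c * E5 / Q)) * (c * Q) = 0 := by rw [h]; ring
      field_simp at this
      linear_combination this
    · intro h
      apply s4
      have : ((E1 - c) * (c * (E1 - c) - E2 - σ) - Q / c) * c = 0 := by rw [h]; ring
      field_simp at this
      linear_combination -this
    · intro h
      apply s2
      have : (σ - c * E5 / Q) * Q = 0 := by rw [h]; ring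
      field_simp at this
      linear_combination this
  · intro x
    rw [M5_eval]
    have hQ' : Q = σ ^ 2 - (c * E1 - E2) * σ + (E4 - c * E3) := hQ
    clear_value Q
    field_simp
    subst hQ'
    ring

theorem realize5_zero (E1 E2 E3 E4 : ℝ) (h : ¬ (E1 = 0 ∧ E3 = 0 ∧ E2 ^ 2 < 4 * E4)) :
    ∃ A : Matrix (Fin 5) (Fin 5) ℝ, Realizes P5 A ∧ ∀ x : ℝ, A.charpoly.eval x =
      x ^ 5 - E1 * x ^ 4 + E2 * x ^ 3 - E3 * x ^ 2 + E4 * x := by
  have m1 : (X ^ 4 - C E1 * X ^ 3 + C E2 * X ^ 2 - C E3 * X + C E4 : ℝ[X]).Monic := by monicity!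
  obtain ⟨c, hcD, hc⟩ := exists_avoid _ (disc_infinite E1 E2 E3 E4 h)
    (X * (X - C E1) * (X ^ 4 - C E1 * X ^ 3 + C E2 * X ^ 2 - C E3 * X + C E4))
    (mul_ne_zero (mul_ne_zero X_ne_zero (monic_X_sub_C E1).ne_zero) m1.ne_zero)
  simp only [eval_mul, eval_add, eval_sub, eval_pow, eval_X, eval_C, mul_ne_zero_iff] at hc
  obtain ⟨⟨hc0, hc1⟩, hcH⟩ := hc
  simp only [Set.mem_setOf_eq] at hcD
  have hg : E1 - c ≠ 0 := fun h => hc1 (by linarith)
  -- the root σ
  obtain ⟨σ, hσ⟩ : ∃ σ : ℝ, σ ^ 2 - (c * E1 - E2) * σ + (E4 - c * E3) = 0 := by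
    refine ⟨((c * E1 - E2) + Real.sqrt ((c * E1 - E2) ^ 2 + 4 * (c * E3 - E4))) / 2, ?_⟩
    have := Real.sq_sqrt hcD
    nlinarith
  have hγ : c * (E1 - c) - E2 - σ ≠ 0 := by
    intro h0
    apply hcH
    have : σ = c * (E1 - c) - E2 := by linarith
    subst this
    linear_combination hσ
  -- choose β
  obtain ⟨β, -, hβ⟩ := exists_avoid Set.univ Set.infinite_univ
    (X * (X - C σ) * (C (E3 + c * σ) + C (E1 - c) * X))
    (by
      refine mul_ne_zero (mul_ne_zero X_ne_zero (monic_X_sub_C σ).ne_zero) ?_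
      intro h
      have := congrArg (fun q : ℝ[X] => q.coeff 1) h
      simp [coeff_X, coeff_C] at this
      exact hg this)
  simp only [eval_mul, eval_add, eval_sub, eval_X, eval_C, mul_ne_zero_iff] at hβ
  obtain ⟨⟨b1, b2⟩, b3⟩ := hβ
  refine ⟨M5 c (E1 - c) (σ - β) β (c * (E1 - c) - E2 - σ) (E3 + c * σ + (E1 - c) * β)
    ((E1 - c) * (c * (E1 - c) - E2 - σ)), ?_, ?_⟩
  · apply M5_realizes hc0 hg _ b1 hγ b3 (mul_ne_zero hg hγ)
    intro h
    exact b2 (by linarith)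
  · intro x
    rw [M5_eval]
    linear_combination (-x) * hσ

/-- The quintics which are not realized by the pattern `P5`. -/
def Bad5 (g : ℝ[X]) : Prop :=
  g.coeff 4 = 0 ∧ g.coeff 2 = 0 ∧ g.coeff 0 = 0 ∧ (g.coeff 3) ^ 2 < 4 * g.coeff 1

theorem realize5 {g : ℝ[X]} (hg : IsMonicOfDegree g 5) (h : ¬ Bad5 g) :
    ∃ A : Matrix (Fin 5) (Fin 5) ℝ, Realizes P5 A ∧ A.charpoly = g := by
  by_cases h0 : g.coeff 0 = 0
  · obtain ⟨A, hA, hx⟩ := realize5_zero (-g.coeff 4) (g.coeff 3) (-g.coeff 2) (g.coeff 1)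
      (fun hh => h ⟨by linarith [hh.1], by linarith [hh.2.1], h0, hh.2.2⟩)
    refine ⟨A, hA, Polynomial.funext fun x => ?_⟩
    rw [hx, quintic_eval hg, h0]
    ring
  · obtain ⟨A, hA, hx⟩ := realize5_nonzero (-g.coeff 4) (g.coeff 3) (-g.coeff 2) (g.coeff 1)
      (-g.coeff 0) (neg_ne_zero.2 h0)
    refine ⟨A, hA, Polynomial.funext fun x => ?_⟩
    rw [hx, quintic_eval hg]
    ring

/-! ### Factorization -/

theorem fac4 {r : ℝ[X]} {n : ℕ} (hr : IsMonicOfDegree r (n + 4)) :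
    ∃ f h : ℝ[X], IsMonicOfDegree f 4 ∧ IsMonicOfDegree h n ∧ r = f * h := by
  obtain ⟨f₁, r₁, hf₁, hr₁, rfl⟩ :=
    IsMonicOfDegree.eq_isMonicOfDegree_two_mul_isMonicOfDegree (n := n + 2) hr
  obtain ⟨f₂, r₂, hf₂, hr₂, rfl⟩ :=
    IsMonicOfDegree.eq_isMonicOfDegree_two_mul_isMonicOfDegree (n := n) hr₁
  exact ⟨f₁ * f₂, r₂, hf₁.mul hf₂, hr₂, by ring⟩

/-- Even quartics without real roots which are not products of even quadratics. -/
def Bad4 (h : ℝ[X]) : Prop :=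
  h.coeff 3 = 0 ∧ h.coeff 1 = 0 ∧ (h.coeff 2) ^ 2 < 4 * h.coeff 0

theorem bad4_factor {h : ℝ[X]} (hh : IsMonicOfDegree h 4) (hb : Bad4 h) :
    ∃ u v : ℝ, 0 < u ∧ 0 < v ∧
      h = (X ^ 2 - C u * X + C v) * (X ^ 2 + C u * X + C v) := by
  obtain ⟨h3, h1, hd⟩ := hb
  have hc : 0 < h.coeff 0 := by nlinarith [sq_nonneg (h.coeff 2)]
  set v := Real.sqrt (h.coeff 0) with hv
  have hvpos : 0 < v := Real.sqrt_pos.2 hc
  have hv2 : v ^ 2 = h.coeff 0 := Real.sq_sqrt hc.le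
  have hlt : h.coeff 2 < 2 * v := by
    have : (h.coeff 2) ^ 2 < (2 * v) ^ 2 := by nlinarith
    exact lt_of_pow_lt_pow_left₀ 2 (by positivity) this
  set u := Real.sqrt (2 * v - h.coeff 2) with hu
  have hupos : 0 < u := Real.sqrt_pos.2 (by linarith)
  have hu2 : u ^ 2 = 2 * v - h.coeff 2 := Real.sq_sqrt (by linarith)
  refine ⟨u, v, hupos, hvpos, ?_⟩
  apply Polynomial.funext
  intro x
  rw [quartic_eval hh, h3, h1]
  simp only [eval_mul, eval_add, eval_sub, eval_pow, eval_X, eval_C]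
  have e0 : h.coeff 0 = v ^ 2 := hv2.symm
  have e2 : h.coeff 2 = 2 * v - u ^ 2 := by linarith
  rw [e0, e2]
  ring

theorem quad_mul_monic (u v w z : ℝ) :
    IsMonicOfDegree ((X ^ 2 + C u * X + C v) * (X ^ 2 + C w * X + C z) : ℝ[X]) 4 :=
  (isMonicOfDegree_add_add_two u v).mul (isMonicOfDegree_add_add_two w z)

theorem quad_mul_expand (u v w z : ℝ) :
    ((X ^ 2 + C u * X + C v) * (X ^ 2 + C w * X + C z) : ℝ[X]) =
      X ^ 4 + C (u + w) * X ^ 3 + C (v + z + u * w) * X ^ 2 + C (u * z + v * w) * X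
        + C (v * z) := by
  simp only [C_add, C_mul]
  ring

theorem quad_mul_coeff3 (u v w z : ℝ) :
    ((X ^ 2 + C u * X + C v) * (X ^ 2 + C w * X + C z) : ℝ[X]).coeff 3 = u + w := by
  rw [quad_mul_expand]
  simp only [coeff_add, coeff_C_mul, coeff_X_pow, coeff_X, coeff_C]
  norm_num

theorem quad_mul_coeff0 (u v w z : ℝ) :
    ((X ^ 2 + C u * X + C v) * (X ^ 2 + C w * X + C z) : ℝ[X]).coeff 0 = v * z := by
  simp [mul_coeff_zero]

/-- Every octic with nonzero constant term is a product of two quartics, the second of which is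
not bad. -/
theorem fac8 {r : ℝ[X]} (hr : IsMonicOfDegree r 8) :
    ∃ f h : ℝ[X], IsMonicOfDegree f 4 ∧ IsMonicOfDegree h 4 ∧ r = f * h ∧ ¬ Bad4 h := by
  obtain ⟨f, h, hf, hh, rfl⟩ := fac4 (n := 4) hr
  by_cases hb : Bad4 h
  · by_cases hb' : Bad4 f
    · obtain ⟨u, v, hu, hv, rfl⟩ := bad4_factor hf hb'
      obtain ⟨w, z, hw, hz, rfl⟩ := bad4_factor hh hb
      refine ⟨(X ^ 2 + C (-u) * X + C v) * (X ^ 2 + C (-w) * X + C z),
        (X ^ 2 + C u * X + C v) * (X ^ 2 + C w * X + C z),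
        quad_mul_monic _ _ _ _, quad_mul_monic _ _ _ _, ?_, ?_⟩
      · simp only [C_neg]
        ring
      · intro hbb
        have := hbb.1
        rw [quad_mul_coeff3] at this
        linarith
    · exact ⟨h, f, hh, hf, mul_comm _ _, hb'⟩
  · exact ⟨f, h, hf, hh, rfl, hb⟩

theorem factor9 {p : ℝ[X]} (hp : IsMonicOfDegree p 9) :
    ∃ f g : ℝ[X], IsMonicOfDegree f 4 ∧ IsMonicOfDegree g 5 ∧ p = f * g ∧
      (f.coeff 0 ≠ 0 ∨ f = X ^ 4) ∧ ¬ Bad5 g := by
  have hp0 : p ≠ 0 := hp.ne_zero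
  obtain ⟨r, hr, hnd⟩ := p.exists_eq_pow_rootMultiplicity_mul_and_not_dvd hp0 0
  set k := p.rootMultiplicity 0 with hk
  simp only [C_0, sub_zero] at hr hnd
  have hr0 : r.coeff 0 ≠ 0 := fun h => hnd (X_dvd_iff.2 h)
  have hXk : IsMonicOfDegree (X ^ k : ℝ[X]) k := isMonicOfDegree_X_pow ℝ k
  have hrm : r.Monic := by
    have := hp.monic
    rw [hr] at this
    exact Polynomial.Monic.of_mul_monic_left hXk.monic this
  have hdeg : k + r.natDegree = 9 := by
    have h1 := hp.natDegree_eq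
    rw [hr, (hXk.monic).natDegree_mul hrm, hXk.natDegree_eq] at h1
    exact h1
  have hk9 : k ≤ 9 := by omega
  have hrd : IsMonicOfDegree r (9 - k) := ⟨by omega, hrm⟩
  rcases Nat.lt_or_ge 5 k with hk5 | hk5
  · -- k ≥ 6
    refine ⟨X ^ 4, X ^ (k - 4) * r, isMonicOfDegree_X_pow ℝ 4, ?_, ?_, Or.inr rfl, ?_⟩
    · have := (isMonicOfDegree_X_pow ℝ (k - 4)).mul hrd
      rwa [show k - 4 + (9 - k) = 5 by omega] at this
    · rw [hr, ← mul_assoc, ← pow_add, show 4 + (k - 4) = k by omega]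
    · rintro ⟨-, -, -, hlt⟩
      have : (X ^ (k - 4) * r : ℝ[X]).coeff 1 = 0 := by
        rw [coeff_X_pow_mul', if_neg (by omega)]
      rw [this] at hlt
      nlinarith [sq_nonneg ((X ^ (k - 4) * r : ℝ[X]).coeff 3)]
  · by_cases hk1 : k = 1
    · rw [hk1] at hr hrd
      obtain ⟨f, h, hf, hh, hfh, hb⟩ := fac8 (r := r) hrd
      have hf0 : f.coeff 0 ≠ 0 := by
        intro h0
        apply hr0
        rw [hfh, mul_coeff_zero, h0, zero_mul]
      refine ⟨f, X * h, hf, ?_, ?_, Or.inl hf0, ?_⟩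
      · exact (isMonicOfDegree_X ℝ).mul hh
      · rw [hr, hfh]; ring
      · rintro ⟨h4, h2, -, hlt⟩
        simp only [coeff_X_mul] at h4 h2 hlt
        exact hb ⟨h4, h2, hlt⟩
    · obtain ⟨f, h, hf, hh, hfh⟩ := fac4 (n := 5 - k) (r := r)
        (by rwa [show 5 - k + 4 = 9 - k by omega])
      have hf0 : f.coeff 0 ≠ 0 := by
        intro h0
        apply hr0
        rw [hfh, mul_coeff_zero, h0, zero_mul]
      have hh0 : h.coeff 0 ≠ 0 := by
        intro h0
        apply hr0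
        rw [hfh, mul_coeff_zero, h0, mul_zero]
      refine ⟨f, X ^ k * h, hf, ?_, ?_, Or.inl hf0, ?_⟩
      · have := hXk.mul hh
        rwa [show k + (5 - k) = 5 by omega] at this
      · rw [hr, hfh]; ring
      · rintro ⟨-, -, h00, hlt⟩
        by_cases hk0 : k = 0
        · rw [hk0] at h00
          simp at h00
          exact hh0 h00
        · have : (X ^ k * h : ℝ[X]).coeff 1 = 0 := by
            rw [coeff_X_pow_mul', if_neg (by omega)]
          rw [this] at hlt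
          nlinarith [sq_nonneg ((X ^ k * h : ℝ[X]).coeff 3)]

/-! ### The direct sum -/

theorem sum_SAP : SpectrallyArbitrary (directSum P4 P5) := by
  intro p hm hd
  obtain ⟨f, g, hf, hg, rfl, h4, h5⟩ := factor9 (p := p) ⟨hd, hm⟩
  obtain ⟨A, hA, hAf⟩ := realize4 hf h4
  obtain ⟨B, hB, hBg⟩ := realize5 hg h5
  refine ⟨Matrix.reindex finSumFinEquiv finSumFinEquiv (Matrix.fromBlocks A 0 0 B), ?_, ?_⟩
  · intro i j
    simp only [directSum, Matrix.reindex_apply, Matrix.submatrix_apply]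
    rcases hi : finSumFinEquiv.symm i with i' | i' <;> rcases hj : finSumFinEquiv.symm j with j' | j'
    · simpa using hA i' j'
    · simp
    · simp
    · simpa using hB i' j'
  · rw [Matrix.charpoly_reindex, Matrix.charpoly_fromBlocks_zero₁₂, hAf, hBg]

/-- **Answer to Q1: yes.** The zero-nonzero patterns `P4` (the pattern of `M₄`) and `P5` are not
spectrally arbitrary, while their direct sum is. -/
theorem result :
    ¬ SpectrallyArbitrary P4 ∧ ¬ SpectrallyArbitrary P5 ∧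
      SpectrallyArbitrary (directSum P4 P5) :=
  ⟨P4_not, P5_not, sum_SAP⟩

end Pool.Agent.Results.MP_1020fe_co.SumOfNonSAP
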